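import Pool.Agent.helper12.OB.SpecA

set_option autoImplicit false

namespace Pool.Agent.OB

open Pool.Agent.helper58.DC Pool.Agent.DI Pool.Agent.GR

section aux

variable {G : Type} [Group G]

lemma LLR_fs [Fintype G] (P : G → Prop) [DecidablePred P] (f : G → ℤ) :
    ∑ᶠ n ∈ {n | P n}, f n = ∑ n ∈ Finset.univ.filter P, f n := by
  rw [← finsum_mem_coe_finset]
  have : ((Finset.univ.filter P : Finset G) : Set G) = {n | P n} := by
    ext n; simp
  rw [this]

lemma LLR_pow (D : Subgroup G) (g n : G) (hg : ∀ d ∈ D, g⁻¹ * d * g ∈ D) (h : g⁻¹ * n ∈ D) (k : ℕ) :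
    (g ^ k)⁻¹ * n ^ k ∈ D := by
  induction k with
  | zero => simpa using D.one_mem
  | succ k ih =>
    have e : (g ^ (k + 1))⁻¹ * n ^ (k + 1) = (g⁻¹ * ((g ^ k)⁻¹ * n ^ k) * g) * (g⁻¹ * n) := by
      rw [pow_succ g k, pow_succ n k]; group
    rw [e]
    exact D.mul_mem (hg _ ih) h

lemma LLR_cpow (D : Subgroup G) (g : G) (hg : ∀ d ∈ D, g⁻¹ * d * g ∈ D) (j : ℕ) :
    ∀ d ∈ D, (g ^ j)⁻¹ * d * g ^ j ∈ D := by
  induction j with
  | zero => intro d hd; simpa using hd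
  | succ j ih =>
    intro d hd
    have e : (g ^ (j + 1))⁻¹ * d * g ^ (j + 1) = g⁻¹ * ((g ^ j)⁻¹ * d * g ^ j) * g := by
      rw [pow_succ g j]; group
    rw [e]
    exact hg _ (ih d hd)

lemma LLR_pel_pow (p : ℕ) (n : G) (h : PEl p n) (k : ℕ) : PEl p (n ^ k) := by
  obtain ⟨m, hm⟩ := h
  exact ⟨m, by rw [← pow_mul, mul_comm, pow_mul, hm, one_pow]⟩

lemma LLR_pel_zpow (p : ℕ) (n : G) (h : PEl p n) (k : ℤ) : PEl p (n ^ k) := by
  obtain ⟨m, hm⟩ := h
  refine ⟨m, ?_⟩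
  rw [← zpow_natCast, ← zpow_mul, mul_comm, zpow_mul, zpow_natCast, hm, one_zpow]

lemma LLR_pel_mul (p : ℕ) (a b : G) (hab : a * b = b * a) (ha : PEl p a) (hb : PEl p b) :
    PEl p (a * b) := by
  obtain ⟨m, hm⟩ := ha
  obtain ⟨l, hl⟩ := hb
  refine ⟨m + l, ?_⟩
  have hc : Commute a b := hab
  rw [hc.mul_pow, pow_add, pow_mul, hm, one_pow, one_mul, mul_comm (p ^ m), pow_mul, hl, one_pow]

/-- the subgroup `C K` -/
def LLR_C3 (C : Subgroup G) (κ : G) (hc : ∀ c ∈ C, c * κ = κ * c) : Subgroup G where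
  carrier := {x | ∃ i : ℤ, x * κ ^ i ∈ C}
  mul_mem' := by
    rintro x y ⟨i, hi⟩ ⟨j, hj⟩
    refine ⟨j + i, ?_⟩
    have h1 : Commute (y * κ ^ j) κ := hc _ hj
    have h2 : Commute y κ := by
      have h3 : y = (y * κ ^ j) * (κ ^ j)⁻¹ := by group
      rw [h3]
      exact h1.mul_left ((Commute.refl κ).zpow_left j).inv_left
    have e : x * y * κ ^ (j + i) = (x * κ ^ i) * (y * κ ^ j) := by
      have h4 : κ ^ i * y = y * κ ^ i := (h2.symm.zpow_left i).eq
      rw [add_comm, zpow_add]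
      calc x * y * (κ ^ i * κ ^ j) = x * (y * κ ^ i) * κ ^ j := by group
        _ = x * (κ ^ i * y) * κ ^ j := by rw [h4]
        _ = (x * κ ^ i) * (y * κ ^ j) := by group
    rw [e]
    exact C.mul_mem hi hj
  one_mem' := ⟨0, by simpa using C.one_mem⟩
  inv_mem' := by
    rintro x ⟨i, hi⟩
    refine ⟨-i, ?_⟩
    have h1 : Commute (x * κ ^ i) κ := hc _ hi
    have h2 : Commute x κ := by
      have h3 : x = (x * κ ^ i) * (κ ^ i)⁻¹ := by group
      rw [h3]
      exact h1.mul_left ((Commute.refl κ).zpow_left i).inv_left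
    have e : x⁻¹ * κ ^ (-i) = (x * κ ^ i)⁻¹ := by
      rw [mul_inv_rev, zpow_neg]
      exact ((h2.zpow_right i).inv_inv).eq
    rw [e]
    exact C.inv_mem hi

lemma LLR_C_le (C : Subgroup G) (κ : G) (hc : ∀ c ∈ C, c * κ = κ * c) : C ≤ LLR_C3 C κ hc := by
  intro c hcC
  exact ⟨0, by simpa using hcC⟩

lemma LLR_κ_mem (C : Subgroup G) (κ : G) (hc : ∀ c ∈ C, c * κ = κ * c) (i : ℤ) :
    κ ^ i ∈ LLR_C3 C κ hc := by
  refine ⟨-i, ?_⟩
  rw [← zpow_add, add_neg_cancel, zpow_zero]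
  exact C.one_mem

lemma LLR_comm (C : Subgroup G) (κ : G) (hc : ∀ c ∈ C, c * κ = κ * c) (x : G)
    (hx : x ∈ LLR_C3 C κ hc) : Commute x κ := by
  obtain ⟨i, hi⟩ := hx
  have h1 : Commute (x * κ ^ i) κ := hc _ hi
  have h3 : x = (x * κ ^ i) * (κ ^ i)⁻¹ := by group
  rw [h3]
  exact h1.mul_left ((Commute.refl κ).zpow_left i).inv_left

open Classical in
lemma LLR_A [Fintype G] (C : Subgroup G) (κ : G) (hc : ∀ c ∈ C, c * κ = κ * c)
    (hCK : ∀ i : ℤ, κ ^ i ∈ C → κ ^ i = 1) (g : G) (f : G → ℤ)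
    (hf : ∀ u, g⁻¹ * u ∈ C → ∀ i : ℕ, f (u * κ ^ i) = f u) :
    ∑ n ∈ Finset.univ.filter (fun n => g⁻¹ * n ∈ LLR_C3 C κ hc), f n =
      (orderOf κ : ℤ) * ∑ u ∈ Finset.univ.filter (fun u => g⁻¹ * u ∈ C), f u := by
  have hq : 0 < orderOf κ := orderOf_pos κ
  have h1 : ∑ x ∈ (Finset.univ.filter (fun u => g⁻¹ * u ∈ C)) ×ˢ (Finset.range (orderOf κ)),
      f x.1 = (orderOf κ : ℤ) * ∑ u ∈ Finset.univ.filter (fun u => g⁻¹ * u ∈ C), f u := by
    rw [Finset.sum_product]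
    simp only [Finset.sum_const, Finset.card_range, nsmul_eq_mul]
    rw [Finset.mul_sum]
  rw [← h1]
  symm
  refine Finset.sum_bij (fun x _ => x.1 * κ ^ x.2) ?_ ?_ ?_ ?_
  · rintro ⟨u, i⟩ hx
    rw [Finset.mem_product, Finset.mem_filter] at hx
    rw [Finset.mem_filter]
    refine ⟨Finset.mem_univ _, ?_⟩
    have e : g⁻¹ * (u * κ ^ i) = (g⁻¹ * u) * κ ^ (i : ℤ) := by rw [zpow_natCast]; group
    show g⁻¹ * (u * κ ^ i) ∈ LLR_C3 C κ hc
    rw [e]
    exact (LLR_C3 C κ hc).mul_mem (LLR_C_le C κ hc hx.1.2) (LLR_κ_mem C κ hc _)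
  · rintro ⟨u, i⟩ hx ⟨v, j⟩ hy hxy
    rw [Finset.mem_product, Finset.mem_filter, Finset.mem_range] at hx hy
    have hxy' : u * κ ^ i = v * κ ^ j := hxy
    have e : κ ^ ((j : ℤ) - i) = (g⁻¹ * v)⁻¹ * (g⁻¹ * u) := by
      have : u = v * κ ^ j * (κ ^ i)⁻¹ := by rw [← hxy']; group
      rw [this, zpow_sub, zpow_natCast, zpow_natCast]; group
    have h2 : κ ^ ((j : ℤ) - i) ∈ C := by
      rw [e]; exact C.mul_mem (C.inv_mem hy.1.2) hx.1.2
    have h3 := hCK _ h2
    have h4 : κ ^ i = κ ^ j := by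
      rw [zpow_sub, zpow_natCast, zpow_natCast] at h3
      exact (mul_inv_eq_one.1 h3).symm
    have h5 : i = j := pow_injOn_Iio_orderOf (Set.mem_Iio.2 hx.2) (Set.mem_Iio.2 hy.2) h4
    subst h5
    have h6 : u = v := mul_right_cancel hxy'
    rw [h6]
  · intro n hn
    rw [Finset.mem_filter] at hn
    obtain ⟨i, hi⟩ := hn.2
    have hcn := LLR_comm C κ hc _ hn.2
    obtain ⟨j, hj⟩ : ∃ j : ℕ, j < orderOf κ ∧ κ ^ j = κ ^ (-i) := by
      refine ⟨((-i) % (orderOf κ : ℤ)).toNat, ?_, ?_⟩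
      · have h1 := Int.emod_lt_of_pos (-i) (by exact_mod_cast hq : (0 : ℤ) < orderOf κ)
        have h2 := Int.emod_nonneg (-i) (by exact_mod_cast hq.ne' : (orderOf κ : ℤ) ≠ 0)
        omega
      · have h2 := Int.emod_nonneg (-i) (by exact_mod_cast hq.ne' : (orderOf κ : ℤ) ≠ 0)
        rw [← zpow_natCast, Int.toNat_of_nonneg h2, zpow_mod_orderOf]
    refine ⟨(n * κ ^ i, j), ?_, ?_⟩
    · rw [Finset.mem_product, Finset.mem_filter, Finset.mem_range]
      refine ⟨⟨Finset.mem_univ _, ?_⟩, hj.1⟩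
      show g⁻¹ * (n * κ ^ i) ∈ C
      rw [← mul_assoc]
      exact hi
    · show n * κ ^ i * κ ^ j = n
      rw [hj.2, mul_assoc, ← zpow_add, add_neg_cancel, zpow_zero, mul_one]
  · rintro ⟨u, i⟩ hx
    rw [Finset.mem_product, Finset.mem_filter] at hx
    exact (hf u hx.1.2 i).symm

open Classical in
lemma LLR_ccard [Fintype G] (C : Subgroup G) (g : G) :
    (∑ u ∈ Finset.univ.filter (fun u => g⁻¹ * u ∈ C), (1 : ℤ)) = Nat.card C := by
  rw [Finset.sum_const, nsmul_eq_mul, mul_one]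
  congr 1
  rw [Nat.card_eq_fintype_card, ← Fintype.card_coe]
  refine Fintype.card_congr
    { toFun := fun u => ⟨g⁻¹ * u.1, (Finset.mem_filter.1 u.2).2⟩
      invFun := fun c => ⟨g * c.1, Finset.mem_filter.2 ⟨Finset.mem_univ _, by
        rw [inv_mul_cancel_left]; exact c.2⟩⟩
      left_inv := fun u => Subtype.ext (by simp)
      right_inv := fun c => Subtype.ext (by simp) }

/-- the subgroup `D ⟨h⟩` -/
def LLR_N (D : Subgroup G) (h : G) (hD : ∀ d ∈ D, h⁻¹ * d * h ∈ D) (hD' : ∀ d ∈ D, h * d * h⁻¹ ∈ D) :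
    Subgroup G where
  carrier := {n | ∃ j : ℤ, (h ^ j)⁻¹ * n ∈ D}
  mul_mem' := by
    rintro x y ⟨i, hi⟩ ⟨j, hj⟩
    refine ⟨i + j, ?_⟩
    have key : ∀ (j : ℤ), ∀ d ∈ D, (h ^ j)⁻¹ * d * h ^ j ∈ D := by
      intro j
      induction j using Int.induction_on with
      | zero => intro d hd; simpa using hd
      | succ j ih =>
        intro d hd
        have e : (h ^ ((j : ℤ) + 1))⁻¹ * d * h ^ ((j : ℤ) + 1) =
            h⁻¹ * ((h ^ (j : ℤ))⁻¹ * d * h ^ (j : ℤ)) * h := by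
          rw [zpow_add_one]; group
        rw [e]; exact hD _ (ih d hd)
      | pred j ih =>
        intro d hd
        have e : (h ^ (-(j : ℤ) - 1))⁻¹ * d * h ^ (-(j : ℤ) - 1) =
            h * ((h ^ (-(j : ℤ)))⁻¹ * d * h ^ (-(j : ℤ))) * h⁻¹ := by
          rw [zpow_sub_one]; group
        rw [e]; exact hD' _ (ih d hd)
    have e : (h ^ (i + j))⁻¹ * (x * y) = ((h ^ j)⁻¹ * ((h ^ i)⁻¹ * x) * h ^ j) * ((h ^ j)⁻¹ * y) := by
      rw [zpow_add]; group
    rw [e]
    exact D.mul_mem (key j _ hi) hj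
  one_mem' := ⟨0, by simpa using D.one_mem⟩
  inv_mem' := by
    rintro x ⟨i, hi⟩
    refine ⟨-i, ?_⟩
    have key : ∀ (j : ℤ), ∀ d ∈ D, (h ^ j) * d * (h ^ j)⁻¹ ∈ D := by
      intro j
      induction j using Int.induction_on with
      | zero => intro d hd; simpa using hd
      | succ j ih =>
        intro d hd
        have e : (h ^ ((j : ℤ) + 1)) * d * (h ^ ((j : ℤ) + 1))⁻¹ =
            h * ((h ^ (j : ℤ)) * d * (h ^ (j : ℤ))⁻¹) * h⁻¹ := by
          rw [add_comm, zpow_one_add]; group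
        rw [e]; exact hD' _ (ih d hd)
      | pred j ih =>
        intro d hd
        have e : (h ^ (-(j : ℤ) - 1)) * d * (h ^ (-(j : ℤ) - 1))⁻¹ =
            h⁻¹ * ((h ^ (-(j : ℤ))) * d * (h ^ (-(j : ℤ)))⁻¹) * h := by
          rw [sub_eq_neg_add, zpow_add, zpow_neg_one]; group
        rw [e]; exact hD _ (ih d hd)
    have e : (h ^ (-i))⁻¹ * x⁻¹ = h ^ i * ((h ^ i)⁻¹ * x)⁻¹ * (h ^ i)⁻¹ := by
      rw [zpow_neg]; group
    rw [e]
    exact key i _ (D.inv_mem hi)

open Classical in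
lemma LLR_B [Fintype G] (D : Subgroup G) (h : G) (hD : ∀ d ∈ D, h⁻¹ * d * h ∈ D)
    (hD' : ∀ d ∈ D, h * d * h⁻¹ ∈ D) (p : ℕ) (hp : p.Prime) (hhp : h ^ p ∈ D) (hh : h ∉ D)
    (f : G → ℤ) :
    ∑ n ∈ Finset.univ.filter (fun n => n ∈ LLR_N D h hD hD'), f n =
      ∑ j ∈ Finset.range p, ∑ n ∈ Finset.univ.filter (fun n => (h ^ j)⁻¹ * n ∈ D), f n := by
  have hpz : (p : ℤ) ≠ 0 := by exact_mod_cast hp.pos.ne'
  have hmul : ∀ k : ℤ, h ^ ((p : ℤ) * k) ∈ D := by
    intro k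
    rw [zpow_mul, zpow_natCast]
    exact D.zpow_mem hhp k
  have hmem : ∀ k : ℤ, h ^ k ∈ D → (p : ℤ) ∣ k := by
    intro k hk
    by_contra hnd
    have hcop : IsCoprime (p : ℤ) k := by
      rw [Int.isCoprime_iff_gcd_eq_one]
      have := (Int.prime_iff_natAbs_prime.2 (by simpa using hp) : Prime (p : ℤ))
      exact (Int.isCoprime_iff_gcd_eq_one.1 ((Prime.coprime_iff_not_dvd this).2 hnd))
    obtain ⟨a, b, hab⟩ := hcop
    apply hh
    have e : h = h ^ ((p : ℤ) * a) * (h ^ k) ^ b := by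
      rw [← zpow_mul, ← zpow_add]
      have : (p : ℤ) * a + k * b = 1 := by rw [← hab]; ring
      rw [this, zpow_one]
    rw [e]
    exact D.mul_mem (hmul a) (D.zpow_mem hk b)
  have hdis : ∀ i ∈ Finset.range p, ∀ j ∈ Finset.range p, ∀ n : G, (h ^ i)⁻¹ * n ∈ D →
      (h ^ j)⁻¹ * n ∈ D → i = j := by
    intro i hi j hj n h1 h2
    rw [Finset.mem_range] at hi hj
    have h3 : h ^ ((j : ℤ) - i) ∈ D := by
      have e : h ^ ((j : ℤ) - i) = (h ^ i)⁻¹ * n * ((h ^ j)⁻¹ * n)⁻¹ := by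
        rw [sub_eq_neg_add, zpow_add, zpow_neg, zpow_natCast, zpow_natCast]; group
      rw [e]
      exact D.mul_mem h1 (D.inv_mem h2)
    obtain ⟨k, hk⟩ := hmem _ h3
    have h4 : |(j : ℤ) - i| < p := by
      rw [abs_lt]; constructor <;> omega
    have h5 := Int.eq_zero_of_abs_lt_dvd ⟨k, hk⟩ h4
    omega
  rw [← Finset.sum_biUnion]
  · refine Finset.sum_congr ?_ (fun _ _ => rfl)
    ext n
    rw [Finset.mem_filter, Finset.mem_biUnion]
    constructor
    · rintro ⟨-, j, hj⟩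
      refine ⟨(j % (p : ℤ)).toNat, ?_, ?_⟩
      · have h1 := Int.emod_lt_of_pos j (by exact_mod_cast hp.pos : (0 : ℤ) < p)
        have h2 := Int.emod_nonneg j hpz
        rw [Finset.mem_range]; omega
      · rw [Finset.mem_filter]
        refine ⟨Finset.mem_univ _, ?_⟩
        have h2 := Int.emod_nonneg j hpz
        rw [← zpow_natCast, Int.toNat_of_nonneg h2]
        have e : (h ^ (j % (p : ℤ)))⁻¹ * n = h ^ ((p : ℤ) * (j / p)) * ((h ^ j)⁻¹ * n) := by
          have h3 : j = p * (j / p) + j % p := (Int.mul_ediv_add_emod j p).symm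
          have h4 : h ^ ((p : ℤ) * (j / p)) * (h ^ j)⁻¹ = (h ^ (j % (p : ℤ)))⁻¹ := by
            rw [← zpow_neg, ← zpow_neg, ← zpow_add]
            congr 1
            omega
          rw [← mul_assoc, h4]
        rw [e]
        exact D.mul_mem (hmul _) hj
    · rintro ⟨j, -, hj⟩
      rw [Finset.mem_filter] at hj
      exact ⟨Finset.mem_univ _, (j : ℤ), by rw [zpow_natCast]; exact hj.2⟩
  · intro i hi j hj hij
    rw [Function.onFun, Finset.disjoint_left]
    intro n h1 h2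
    rw [Finset.mem_filter] at h1 h2
    exact hij (hdis i hi j hj n h1.2 h2.2)

open Classical in
lemma LLR_P [Fintype G] (D : Subgroup G) (h : G) (hD : ∀ d ∈ D, h⁻¹ * d * h ∈ D)
    (p : ℕ) (hp : p.Prime) (hhp : h ^ p ∈ D)
    (w : G → ℤ) (hw : ∀ a b : G, Subgroup.zpowers a = Subgroup.zpowers b → w a = w b)
    (j : ℕ) (hj1 : 1 ≤ j) (hjp : j < p) :
    ∑ n ∈ Finset.univ.filter (fun n => h⁻¹ * n ∈ D ∧ PEl p n), w n =
      ∑ n ∈ Finset.univ.filter (fun n => (h ^ j)⁻¹ * n ∈ D ∧ PEl p n), w n := by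
  set E := p ^ Fintype.card G with hE
  have hE1 : 1 < E := Nat.one_lt_pow Fintype.card_ne_zero hp.one_lt
  have hpE : p ∣ E := dvd_pow_self p Fintype.card_ne_zero
  have hexp : ∀ n : G, PEl p n → n ^ E = 1 := by
    rintro n ⟨m, hm⟩
    obtain ⟨k, hk, hk2⟩ := (Nat.dvd_prime_pow hp).1 (orderOf_dvd_of_pow_eq_one hm)
    rw [← orderOf_dvd_iff_pow_eq_one, hk2]
    refine pow_dvd_pow p ?_
    have h1 : orderOf n ≤ Fintype.card G := orderOf_le_card_univ
    rw [hk2] at h1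
    exact (Nat.lt_pow_self hp.one_lt).le.trans h1
  have hcop : Nat.Coprime j E := by
    refine Nat.Coprime.pow_right _ ?_
    exact (Nat.coprime_of_lt_prime (Nat.one_le_iff_ne_zero.1 hj1) hjp hp).symm
  obtain ⟨j', -, hj'⟩ := Nat.exists_mul_mod_eq_one_of_coprime hcop hE1
  obtain ⟨e0, hjj⟩ : ∃ e0, j * j' = E * e0 + 1 := by
    refine ⟨j * j' / E, ?_⟩
    conv_lhs => rw [← Nat.div_add_mod (j * j') E]
    rw [hj']
  have hn : ∀ n : G, PEl p n → n ^ (j * j') = n := by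
    intro n hn
    rw [hjj, pow_succ, pow_mul, hexp n hn, one_pow, one_mul]
  have hhE : ∀ k : ℕ, h ^ (E * k) ∈ D := by
    intro k
    obtain ⟨e, he⟩ := hpE
    rw [he, mul_assoc, pow_mul]
    exact D.pow_mem hhp _
  refine Finset.sum_nbij' (fun n => n ^ j) (fun n => n ^ j') ?_ ?_ ?_ ?_ ?_
  · intro n hn'
    rw [Finset.mem_filter] at hn' ⊢
    exact ⟨Finset.mem_univ _, LLR_pow D h n hD hn'.2.1 j, LLR_pel_pow p n hn'.2.2 j⟩
  · intro n hn'
    rw [Finset.mem_filter] at hn' ⊢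
    refine ⟨Finset.mem_univ _, ?_, LLR_pel_pow p n hn'.2.2 j'⟩
    have h1 := LLR_pow D (h ^ j) n (LLR_cpow D h hD j) hn'.2.1 j'
    have h2 : h⁻¹ * n ^ j' = h ^ (E * e0) * (((h ^ j) ^ j')⁻¹ * n ^ j') := by
      rw [← pow_mul, hjj, pow_succ, mul_inv_rev]
      have h3 : h ^ (E * e0) * (h⁻¹ * (h ^ (E * e0))⁻¹) = h⁻¹ := by
        rw [← mul_assoc, ((Commute.refl h).pow_left _).inv_right.eq, mul_assoc, mul_inv_cancel,
          mul_one]
      rw [← mul_assoc, h3]
    rw [h2]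
    exact D.mul_mem (hhE _) h1
  · intro n hn'
    rw [Finset.mem_filter] at hn'
    show (n ^ j) ^ j' = n
    rw [← pow_mul, hn n hn'.2.2]
  · intro n hn'
    rw [Finset.mem_filter] at hn'
    show (n ^ j') ^ j = n
    rw [← pow_mul, mul_comm, hn n hn'.2.2]
  · intro n hn'
    rw [Finset.mem_filter] at hn'
    refine hw _ _ ?_
    refine le_antisymm ?_ ?_
    · rw [Subgroup.zpowers_le]
      show n ∈ Subgroup.zpowers (n ^ j)
      have h5 := Subgroup.pow_mem _ (Subgroup.mem_zpowers (n ^ j)) j'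
      have h6 : (n ^ j) ^ j' = n := by rw [← pow_mul, hn n hn'.2.2]
      rwa [h6] at h5
    · rw [Subgroup.zpowers_le]
      exact Subgroup.pow_mem _ (Subgroup.mem_zpowers n) j

end aux

lemma LLR_sup {G : Type} [Group G] (H : Subgroup G) (κ u : G) (hκ : κ ∈ H) (i : ℕ) :
    H ⊔ Subgroup.zpowers (u * κ ^ i) = H ⊔ Subgroup.zpowers u := by
  refine le_antisymm ?_ ?_
  · refine sup_le le_sup_left ?_
    rw [Subgroup.zpowers_le]
    exact Subgroup.mul_mem _ (Subgroup.mem_sup_right (Subgroup.mem_zpowers u))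
      (Subgroup.mem_sup_left (H.pow_mem hκ i))
  · refine sup_le le_sup_left ?_
    rw [Subgroup.zpowers_le]
    have e : u = (u * κ ^ i) * (κ ^ i)⁻¹ := by group
    have h := Subgroup.mul_mem (H ⊔ Subgroup.zpowers (u * κ ^ i))
      (Subgroup.mem_sup_right (Subgroup.mem_zpowers (u * κ ^ i)))
      (Subgroup.mem_sup_left (H.inv_mem (H.pow_mem hκ i)))
    rwa [← e] at h

theorem LLR (hFRW : FRW_stmt) (hWCD : WCD_stmt) (hWCJ : WCJ_stmt) : LLR_stmt := by
  classical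
  intro G _ _ p hpf H h₀ κ hnz hκH hcomm hC hκp hZ
  have hp : p.Prime := hpf.out
  let _ : Fintype G := Fintype.ofFinite G
  have hcz : ∀ x, x ∈ cz H ↔ ∀ k ∈ H, k * x = x * k := fun x => Subgroup.mem_centralizer_iff
  have hc : ∀ c ∈ cz H, c * κ = κ * c := fun c hc => ((hcz c).1 hc κ hκH).symm
  have hCK : ∀ i : ℤ, κ ^ i ∈ cz H → κ ^ i = 1 := fun i hi =>
    hZ _ (H.zpow_mem hκH i) ((hcz _).1 hi) (LLR_pel_zpow p κ hκp i)
  have hnH : ∀ k, k ∈ H ↔ h₀ * k * h₀⁻¹ ∈ H := fun k => Subgroup.mem_normalizer_iff.1 hnz k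
  have hnH' : ∀ k, k ∈ H ↔ h₀⁻¹ * k * h₀ ∈ H := by
    intro k
    rw [hnH (h₀⁻¹ * k * h₀)]
    have e : h₀ * (h₀⁻¹ * k * h₀) * h₀⁻¹ = k := by group
    rw [e]
  have hC1 : ∀ c ∈ cz H, h₀ * c * h₀⁻¹ ∈ cz H := by
    intro c hcc
    rw [hcz]
    intro k hk
    have h1 := (hcz c).1 hcc _ ((hnH' k).1 hk)
    have h2 : h₀ * (h₀⁻¹ * k * h₀ * c) * h₀⁻¹ = h₀ * (c * (h₀⁻¹ * k * h₀)) * h₀⁻¹ := by rw [h1]
    have e1 : h₀ * (h₀⁻¹ * k * h₀ * c) * h₀⁻¹ = k * (h₀ * c * h₀⁻¹) := by group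
    have e2 : h₀ * (c * (h₀⁻¹ * k * h₀)) * h₀⁻¹ = (h₀ * c * h₀⁻¹) * k := by group
    rw [e1, e2] at h2
    exact h2
  have hC2 : ∀ c ∈ cz H, h₀⁻¹ * c * h₀ ∈ cz H := by
    intro c hcc
    rw [hcz]
    intro k hk
    have h1 := (hcz c).1 hcc _ ((hnH k).1 hk)
    have h2 : h₀⁻¹ * (h₀ * k * h₀⁻¹ * c) * h₀ = h₀⁻¹ * (c * (h₀ * k * h₀⁻¹)) * h₀ := by rw [h1]
    have e1 : h₀⁻¹ * (h₀ * k * h₀⁻¹ * c) * h₀ = k * (h₀⁻¹ * c * h₀) := by group
    have e2 : h₀⁻¹ * (c * (h₀ * k * h₀⁻¹)) * h₀ = (h₀⁻¹ * c * h₀) * k := by group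
    rw [e1, e2] at h2
    exact h2
  have hcz0 : Commute h₀ κ := hcomm
  set D := LLR_C3 (cz H) κ hc with hDdef
  have hD1 : ∀ d ∈ D, h₀⁻¹ * d * h₀ ∈ D := by
    rintro d ⟨i, hi⟩
    refine ⟨i, ?_⟩
    have e : h₀⁻¹ * d * h₀ * κ ^ i = h₀⁻¹ * (d * κ ^ i) * h₀ := by
      have := (hcz0.zpow_right i).eq
      rw [mul_assoc (h₀⁻¹ * d), this]; group
    rw [e]
    exact hC2 _ hi
  have hD2 : ∀ d ∈ D, h₀ * d * h₀⁻¹ ∈ D := by
    rintro d ⟨i, hi⟩
    refine ⟨i, ?_⟩
    have e : h₀ * d * h₀⁻¹ * κ ^ i = h₀ * (d * κ ^ i) * h₀⁻¹ := by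
      have := (hcz0.inv_left.zpow_right i).eq
      rw [mul_assoc (h₀ * d), this]; group
    rw [e]
    exact hC1 _ hi
  have hhp : h₀ ^ p ∈ D := by
    refine ⟨-1, ?_⟩
    have e : h₀ ^ p * κ ^ (-1 : ℤ) = κ⁻¹ * h₀ ^ p := by
      rw [zpow_neg_one]
      exact (hcz0.pow_left p).inv_right.eq
    rw [e]
    exact hC
  -- the weight
  set w : G → ℤ := fun n => W p (H ⊔ Subgroup.zpowers n) with hw
  have hwz : ∀ a b : G, Subgroup.zpowers a = Subgroup.zpowers b → w a = w b := by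
    intro a b hab
    simp only [hw, hab]
  have hw1 : w 1 = W p H := by
    simp only [hw, Subgroup.zpowers_one_eq_bot, sup_bot_eq]
  have hwκ : ∀ (u : G) (i : ℕ), w (u * κ ^ i) = w u := by
    intro u i
    simp only [hw, LLR_sup H κ u hκH i]
  -- vanishing
  have hw0 : ∀ u y : G, y ∈ H ⊔ Subgroup.zpowers u → y ∈ cz H → u * y = y * u → PEl p y → y ≠ 1 →
      w u = 0 := by
    intro u y hy hyC huy hyp hy1
    refine (hWCJ G p).2.2 (H ⊔ Subgroup.zpowers u) y hy ?_ hyp hy1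
    have h1 : H ⊔ Subgroup.zpowers u ≤ Subgroup.centralizer {y} := by
      refine sup_le ?_ ?_
      · intro k hk
        rw [Subgroup.mem_centralizer_iff]
        intro z hz
        rw [Set.mem_singleton_iff.1 hz]
        exact ((hcz y).1 hyC k hk).symm
      · rw [Subgroup.zpowers_le, Subgroup.mem_centralizer_iff]
        intro z hz
        rw [Set.mem_singleton_iff.1 hz]
        exact huy.symm
    intro k hk
    exact ((Subgroup.mem_centralizer_iff.1 (h1 hk)) y (Set.mem_singleton y)).symm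
  have hw2 : ∀ c ∈ cz H, PEl p c → c ≠ 1 → w c = 0 := fun c hcC hcp hc1 =>
    hw0 c c (Subgroup.mem_sup_right (Subgroup.mem_zpowers c)) hcC rfl hcp hc1
  have hsum : ∑ᶠ h ∈ {h : G | h₀⁻¹ * h ∈ cz H ∧ h ^ p = κ}, W p (H ⊔ Subgroup.zpowers h) =
      ∑ h ∈ Finset.univ.filter (fun h : G => h₀⁻¹ * h ∈ cz H ∧ h ^ p = κ), w h :=
    LLR_fs (fun h : G => h₀⁻¹ * h ∈ cz H ∧ h ^ p = κ) w
  rw [hsum]
  set S := ∑ h ∈ Finset.univ.filter (fun h : G => h₀⁻¹ * h ∈ cz H ∧ h ^ p = κ), w h with hS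
  by_cases hcase : h₀ ∈ D
  · -- case 1
    obtain ⟨i, hi⟩ := hcase
    have h1 : κ ^ (1 + i * p) ∈ cz H := by
      have h2 : (h₀ * κ ^ i) ^ p ∈ cz H := (cz H).pow_mem hi p
      rw [(hcz0.zpow_right i).mul_pow] at h2
      have e : κ ^ (1 + i * p) = (κ⁻¹ * h₀ ^ p)⁻¹ * (h₀ ^ p * (κ ^ i) ^ p) := by
        rw [zpow_add, zpow_one, zpow_mul, zpow_natCast]
        have := (hcz0.pow_left p).inv_left.eq
        rw [mul_inv_rev, inv_inv, this]; group
      rw [e]
      exact (cz H).mul_mem ((cz H).inv_mem hC) h2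
    have h2 := hCK _ h1
    have hκ1 : κ = 1 := by
      obtain ⟨m, hm⟩ := hκp
      have hcop : IsCoprime (1 + i * (p : ℤ)) ((p : ℤ) ^ m) := by
        refine IsCoprime.pow_right ?_
        exact ⟨1, -i, by ring⟩
      obtain ⟨a, b, hab⟩ := hcop
      have e : κ = (κ ^ (1 + i * (p : ℤ))) ^ a * (κ ^ (p ^ m)) ^ b := by
        rw [← zpow_natCast κ (p ^ m), ← zpow_mul, ← zpow_mul, ← zpow_add]
        have : (1 + i * (p : ℤ)) * a + ((p ^ m : ℕ) : ℤ) * b = 1 := by
          push_cast; linear_combination hab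
        rw [this, zpow_one]
      rw [e, h2, hm, one_zpow, one_zpow, mul_one]
    have hh0 : h₀ ∈ cz H := by
      rw [hκ1, one_zpow, mul_one] at hi
      exact hi
    have hSW : S = W p H := by
      rw [hS, ← hw1]
      refine Finset.sum_eq_single_of_mem (1 : G) ?_ ?_
      · rw [Finset.mem_filter]
        exact ⟨Finset.mem_univ _, by rw [mul_one]; exact (cz H).inv_mem hh0, by rw [one_pow, hκ1]⟩
      · intro h hh hne
        rw [Finset.mem_filter] at hh
        refine hw2 h ?_ ⟨1, ?_⟩ hne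
        · have := (cz H).mul_mem hh0 hh.2.1
          rwa [mul_inv_cancel_left] at this
        · rw [pow_one, hh.2.2, hκ1]
    rw [hSW, sub_self]
    exact dvd_zero _
  · -- case 2
    obtain ⟨a, haq⟩ : ∃ a, orderOf κ = p ^ a := by
      obtain ⟨m, hm⟩ := hκp
      obtain ⟨k, -, hk⟩ := (Nat.dvd_prime_pow hp).1 (orderOf_dvd_of_pow_eq_one hm)
      exact ⟨k, hk⟩
    set N := LLR_N D h₀ hD1 hD2 with hN
    have hNle : N ≤ nz H := by
      rintro n ⟨j, hj⟩
      have hDle : D ≤ nz H := by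
        rintro d ⟨i, hi⟩
        have h1 : cz H ≤ nz H := by
          intro c hcC
          rw [Subgroup.mem_normalizer_iff]
          intro k
          constructor
          · intro hk
            have := (hcz c).1 hcC k hk
            rw [← this, mul_assoc, mul_inv_cancel, mul_one]
            exact hk
          · intro hk
            have := (hcz c).1 hcC _ hk
            have e : k = c * k * c⁻¹ := by
              have h3 : c * k * c⁻¹ * c = c * (c * k * c⁻¹) := this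
              have h4 : c * k = c * (c * k * c⁻¹) := by rw [← h3]; group
              exact mul_left_cancel h4
            rw [e]; exact hk
        have h2 := (nz H).mul_mem (h1 hi) ((nz H).inv_mem (Subgroup.le_normalizer (H.zpow_mem hκH i)))
        have e : d * κ ^ i * (κ ^ i)⁻¹ = d := by group
        rwa [e] at h2
      have h2 := (nz H).mul_mem ((nz H).zpow_mem hnz j) (hDle hj)
      rwa [mul_inv_cancel_left] at h2
    set F : G → ℤ := fun n => if PEl p n then w n else 0 with hF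
    -- FRW
    have hfrw := hFRW G p H N hNle
    have hPF : ∀ A : G → Prop, ∑ n ∈ Finset.univ.filter (fun n => A n ∧ PEl p n), w n =
        ∑ n ∈ Finset.univ.filter (fun n => A n), F n := by
      intro A
      rw [← Finset.filter_filter, Finset.sum_filter]
    have hfs : ∑ᶠ n ∈ {n : G | n ∈ N ∧ PEl p n}, W p (H ⊔ Subgroup.zpowers n) =
        ∑ n ∈ Finset.univ.filter (fun n => n ∈ N), F n := by
      rw [← hPF]
      exact LLR_fs (fun n : G => n ∈ N ∧ PEl p n) w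
    rw [hfs, LLR_B D h₀ hD1 hD2 p hp hhp hcase F] at hfrw
    -- LLR_A for F
    have hFκ : ∀ u : G, Commute u κ → ∀ i : ℕ, F (u * κ ^ i) = F u := by
      intro u hu i
      have h1 : PEl p (u * κ ^ i) ↔ PEl p u := by
        constructor
        · intro h
          have e : u = (u * κ ^ i) * κ ^ (-(i : ℤ)) := by rw [zpow_neg, zpow_natCast]; group
          rw [e]
          refine LLR_pel_mul p _ _ ?_ h (LLR_pel_zpow p κ hκp _)
          exact ((hu.mul_left ((Commute.refl κ).pow_left i)).zpow_right _).eq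
        · intro h
          exact LLR_pel_mul p _ _ (hu.pow_right i).eq h (LLR_pel_pow p κ hκp i)
      simp only [hF, h1, hwκ]
    have hcomC : ∀ (g : G), Commute g κ → ∀ u, g⁻¹ * u ∈ cz H → Commute u κ := by
      intro g hg u hu
      have h1 : Commute (g⁻¹ * u) κ := hc _ hu
      have h2 := hg.mul_left h1
      rwa [mul_inv_cancel_left] at h2
    have hA : ∀ g : G, Commute g κ →
        ∑ n ∈ Finset.univ.filter (fun n => g⁻¹ * n ∈ D), F n =
          (orderOf κ : ℤ) * ∑ u ∈ Finset.univ.filter (fun u => g⁻¹ * u ∈ cz H), F u := fun g hg =>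
      LLR_A (cz H) κ hc hCK g F (fun u hu i => hFκ u (hcomC g hg u hu) i)
    have hT0 : ∑ n ∈ Finset.univ.filter (fun n => (h₀ ^ 0)⁻¹ * n ∈ D), F n =
        (orderOf κ : ℤ) * W p H := by
      rw [hA (h₀ ^ 0) (hcz0.pow_left 0)]
      congr 1
      rw [← hw1]
      have hF1 : F 1 = w 1 := by
        simp only [hF]
        rw [if_pos ⟨0, by rw [one_pow]⟩]
      rw [← hF1]
      refine Finset.sum_eq_single_of_mem (1 : G) ?_ ?_
      · rw [Finset.mem_filter]
        exact ⟨Finset.mem_univ _, by rw [pow_zero, inv_one, mul_one]; exact (cz H).one_mem⟩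
      · intro c hcC hne
        rw [Finset.mem_filter, pow_zero, inv_one, one_mul] at hcC
        simp only [hF]
        by_cases hpe : PEl p c
        · rw [if_pos hpe]
          exact hw2 c hcC.2 hpe hne
        · rw [if_neg hpe]
    have hT1 : ∑ n ∈ Finset.univ.filter (fun n => h₀⁻¹ * n ∈ D), F n = (orderOf κ : ℤ) * S := by
      rw [hA h₀ hcz0]
      congr 1
      rw [hS, ← Finset.filter_filter, Finset.sum_filter (fun a => a ^ p = κ)]
      refine Finset.sum_congr rfl ?_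
      intro u hu
      rw [Finset.mem_filter] at hu
      by_cases hup : u ^ p = κ
      · rw [if_pos hup]
        simp only [hF]
        rw [if_pos]
        obtain ⟨m, hm⟩ := hκp
        exact ⟨m + 1, by rw [pow_succ', pow_mul, hup, hm]⟩
      · rw [if_neg hup]
        simp only [hF]
        by_cases hpe : PEl p u
        · rw [if_pos hpe]
          have huκ : Commute u κ := hcomC h₀ hcz0 u hu.2
          have hy : κ⁻¹ * u ^ p ∈ cz H := by
            have h1 := LLR_pow (cz H) h₀ u hC2 hu.2 p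
            have e : κ⁻¹ * u ^ p = (κ⁻¹ * h₀ ^ p) * ((h₀ ^ p)⁻¹ * u ^ p) := by group
            rw [e]
            exact (cz H).mul_mem hC h1
          refine hw0 u (κ⁻¹ * u ^ p) ?_ hy ?_ ?_ ?_
          · exact Subgroup.mul_mem _ (Subgroup.mem_sup_left (H.inv_mem hκH))
              (Subgroup.mem_sup_right (Subgroup.pow_mem _ (Subgroup.mem_zpowers u) p))
          · exact (huκ.inv_right.mul_right ((Commute.refl u).pow_right p)).eq
          · have h1 : PEl p κ⁻¹ := by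
              have := LLR_pel_zpow p κ hκp (-1)
              rwa [zpow_neg_one] at this
            exact LLR_pel_mul p _ _ (huκ.inv_right.pow_left p).symm.eq h1 (LLR_pel_pow p u hpe p)
          · intro h1
            exact hup (inv_mul_eq_one.1 h1).symm
        · rw [if_neg hpe]
    have hTj : ∀ j ∈ Finset.range (p - 1),
        ∑ n ∈ Finset.univ.filter (fun n => (h₀ ^ (j + 1))⁻¹ * n ∈ D), F n =
          (orderOf κ : ℤ) * S := by
      intro j hj
      rw [Finset.mem_range] at hj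
      rw [← hT1, ← hPF, ← hPF]
      exact (LLR_P D h₀ hD1 p hp hhp w hwz (j + 1) (by omega) (by omega)).symm
    have hpp : p = (p - 1) + 1 := by have := hp.pos; omega
    have hsplit : ∑ j ∈ Finset.range p,
        ∑ n ∈ Finset.univ.filter (fun n => (h₀ ^ j)⁻¹ * n ∈ D), F n =
        (orderOf κ : ℤ) * (W p H + ((p : ℤ) - 1) * S) := by
      conv_lhs => rw [hpp]
      rw [Finset.sum_range_succ', hT0, Finset.sum_congr rfl hTj, Finset.sum_const,
        Finset.card_range, nsmul_eq_mul, Nat.cast_sub hp.one_le]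
      push_cast
      ring
    rw [hsplit] at hfrw
    -- the order of N
    have hcard : (Nat.card N : ℤ) = (p : ℤ) * ((orderOf κ : ℤ) * (Nat.card (cz H) : ℤ)) := by
      have h1 : (Nat.card N : ℤ) = ∑ n ∈ Finset.univ.filter (fun n => n ∈ N), (1 : ℤ) := by
        rw [Finset.sum_const, nsmul_eq_mul, mul_one, Nat.card_eq_fintype_card,
          Fintype.card_subtype]
      rw [h1, LLR_B D h₀ hD1 hD2 p hp hhp hcase (fun _ => 1)]
      have h2 : ∀ j ∈ Finset.range p,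
          ∑ n ∈ Finset.univ.filter (fun n => (h₀ ^ j)⁻¹ * n ∈ D), (1 : ℤ) =
            (orderOf κ : ℤ) * (Nat.card (cz H) : ℤ) := by
        intro j _
        rw [LLR_A (cz H) κ hc hCK (h₀ ^ j) (fun _ => 1) (fun _ _ _ => rfl), LLR_ccard]
      rw [Finset.sum_congr rfl h2, Finset.sum_const, Finset.card_range, nsmul_eq_mul]
    have hcard' : Nat.card N = p ^ (1 + a) * Nat.card (cz H) := by
      have h1 : (Nat.card N : ℤ) = ((p ^ (1 + a) * Nat.card (cz H) : ℕ) : ℤ) := by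
        rw [hcard, haq]; push_cast; ring
      exact_mod_cast h1
    have hppN : pp p N = p ^ (1 + a) * pp p (cz H) := by
      unfold pp
      have h1 : p ^ (1 + a) ≠ 0 := pow_ne_zero _ hp.ne_zero
      have h2 : Nat.card (cz H) ≠ 0 := Nat.card_pos.ne'
      rw [hcard', padicValNat.mul h1 h2, padicValNat.prime_pow, pow_add]
    have hdiv : ((p * pp p (cz H) : ℕ) : ℤ) ∣ W p H + ((p : ℤ) - 1) * S := by
      have h1 : ((p ^ a : ℕ) : ℤ) * ((p * pp p (cz H) : ℕ) : ℤ) ∣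
          ((p ^ a : ℕ) : ℤ) * (W p H + ((p : ℤ) - 1) * S) := by
        have e : ((p ^ a : ℕ) : ℤ) * ((p * pp p (cz H) : ℕ) : ℤ) = (pp p N : ℤ) := by
          rw [hppN]; push_cast; ring
        rw [e, ← haq]
        exact hfrw
      exact (mul_dvd_mul_iff_left (by
        have : p ^ a ≠ 0 := pow_ne_zero _ hp.ne_zero
        exact_mod_cast this)).1 h1
    have hWd := hWCD G p H
    have hSd : (pp p (cz H) : ℤ) ∣ S := by
      have h1 : (pp p (cz H) : ℤ) ∣ W p H + ((p : ℤ) - 1) * S := by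
        refine dvd_trans ?_ hdiv
        push_cast
        exact dvd_mul_left _ _
      have h2 : (pp p (cz H) : ℤ) ∣ ((p : ℤ) - 1) * S := (dvd_add_right hWd).1 h1
      have hcop : IsCoprime (pp p (cz H) : ℤ) ((p : ℤ) - 1) := by
        unfold pp
        push_cast
        refine IsCoprime.pow_left ?_
        exact ⟨1, -1, by ring⟩
      exact hcop.dvd_of_dvd_mul_left h2
    have e : S - W p H = p * S - (W p H + ((p : ℤ) - 1) * S) := by ring
    rw [e]
    refine dvd_sub ?_ hdiv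
    push_cast
    exact mul_dvd_mul_left _ hSd

end Pool.Agent.OB
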